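import Pool.Agent.H92.BF.ZER

/-!
# MP_70ba79_ag: row MN of the board `bin_modules`
-/

set_option autoImplicit false

namespace Pool.Agent.H92.BF

open MvPolynomial SC Pool.Agent.H27.LV

lemma lf_ne {k : Type} [Field k] {m : ℕ} {a : Fin m → Fin 2 → k} (h : Pw a) (hm : 2 ≤ m)
    (i : Fin m) : lf (a i) ≠ 0 := by
  obtain ⟨j, hj⟩ : ∃ j : Fin m, i ≠ j := by
    by_cases hi : i = ⟨0, by omega⟩
    · exact ⟨⟨1, by omega⟩, by rw [hi]; intro h; simp [Fin.ext_iff] at h⟩
    · exact ⟨_, hi⟩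
  intro h0
  have h1 := h i j hj
  apply h1
  have h2 : ∀ y : Fin 2 → k, a i 0 * y 0 + a i 1 * y 1 = 0 := by
    intro y
    have := congrArg (eval y) h0
    unfold lf at this
    simpa using this
  have h3 := h2 ![1, 0]
  have h4 := h2 ![0, 1]
  simp only [Matrix.cons_val_zero, Matrix.cons_val_one, mul_one, mul_zero, add_zero,
    zero_add] at h3 h4
  rw [h3, h4]
  ring

lemma FF_ne {k : Type} [Field k] {m : ℕ} {a : Fin m → Fin 2 → k} (h : Pw a) (hm : 2 ≤ m) :
    FF a ≠ 0 := by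
  unfold FF
  rw [Finset.prod_ne_zero_iff]
  exact fun i _ => lf_ne h hm i

/-- a curve on which the form of positive degree `F` is constant -/
lemma inCurve_const {k K : Type} [Field k] [Field K] [Algebra k K] {m : ℕ}
    {F : MvPolynomial (Fin 2) k} (hF : F.IsHomogeneous m) (hF0 : F ≠ 0) (hm : 1 ≤ m)
    (x : Fin 2 → K) (h : aeval x F ∈ Set.range (algebraMap k K)) : InCurve k m x := by
  obtain ⟨c, hc⟩ := h
  refine ⟨F - C c, ?_, ?_, ?_⟩
  · intro h0
    obtain ⟨s, hs⟩ := MvPolynomial.ne_zero_iff.1 hF0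
    have hs1 : s.degree = m := by
      by_contra hne
      exact hs (hF.coeff_eq_zero hne)
    have h1 := congrArg (coeff s) h0
    rw [coeff_sub, coeff_C, coeff_zero, if_neg] at h1
    · rw [sub_zero] at h1
      exact hs h1
    · rintro rfl
      simp at hs1
      omega
  · refine (totalDegree_sub _ _).trans ?_
    rw [totalDegree_C, max_le_iff]
    exact ⟨hF.totalDegree_le, Nat.zero_le _⟩
  · rw [map_sub, aeval_C, hc, sub_self]

lemma InCurve.mono {k K : Type} [Field k] [Field K] [Algebra k K] {N N' : ℕ} {x : Fin 2 → K}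
    (h : InCurve k N x) (hN : N ≤ N') : InCurve k N' x := by
  obtain ⟨P, h1, h2, h3⟩ := h
  exact ⟨P, h1, h2.trans hN, h3⟩

/-- Row MN. -/
theorem pf_MN (hSOL : T_SOL) (hGLO : T_GLO) (hCAS : T_CAS) : T_MN := by
  intro k _ _ _ m a hm hPw
  obtain ⟨α, γ, hS⟩ := hSOL k m (m / 2 + 1) a hPw (by omega) (by omega) (by omega)
  obtain ⟨B, hB⟩ := hCAS k m (m / 2 + 1) (FF a) α γ (by omega) (by omega) (FF_homog a)
    (FF_ne hPw (by omega)) hS.ha hS.hg hS.ne
  refine ⟨max B m, ?_⟩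
  intro K _ _ _ htr D hD x S hx
  by_cases h0 : D (aeval x (FF a)) = 0
  · right
    exact (inCurve_const (FF_homog a) (FF_ne hPw (by omega)) (by omega) x
      (ker k K htr D hD _ h0)).mono (le_max_right _ _)
  by_cases h1 : RR m (m / 2 + 1) α γ (dlog D (aeval x (FF a) - 1)) x = 0
  · right
    exact (hB K htr D hD x h1).mono (le_max_left _ _)
  · left
    have h2 := hGLO k K htr m (m / 2 + 1) a α γ hPw (by omega) (by omega) (by omega) hS D hD x S hx
      h0 h1
    have h3 : (m : ℤ) - ((m / 2 + 1 : ℕ) : ℤ) - 2 = (((m + 1) / 2 : ℕ) : ℤ) - 3 := by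
      omega
    rwa [h3] at h2

end Pool.Agent.H92.BF
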