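import Pool.Agent.H92.BF.ZER
import Pool.Agent.H92.BF.MN
import Pool.Agent.H56.BIN.DV
import Pool.Agent.H56.BF.BFR
import Pool.Agent.H56.BF.TRU
import Pool.Agent.H33.BF.CAS
import Pool.Agent.H33.BF.DHO
import Pool.Agent.H33.BF.ORD
import Pool.Agent.H34.BF.CNS
import Pool.Agent.H34.BF.PLA
import Pool.Agent.H20.BF2.GLO
import Pool.Agent.H20.BF2.LI
import Pool.Agent.H64.BF.IMG
import Pool.Agent.H64.BF.MPA
import Pool.Agent.H64.BF.MPB
import Pool.Agent.H96.BF.LO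
import Pool.Agent.H19.BF.POL
import Pool.Agent.H19.BF.RZ
import Pool.Agent.H19.BF.SOL

/-!
# MP_70ba79_ag: assembly of the board `bin_modules`
-/

set_option autoImplicit false

namespace Pool.Agent.H92.BF

theorem all_DHO : T_DHO := Pool.Agent.H33.BF.pf_DHO

theorem all_SOL : T_SOL := Pool.Agent.H19.BF.pf_SOL (Pool.Agent.H56.BF.pf_BFR all_DHO)

theorem all_ZER : T_ZER := pf_ZER (Pool.Agent.H56.BIN.pf_JAC Pool.Agent.H56.BIN.pf_DV)

theorem all_GLO : T_GLO :=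
  Pool.Agent.H20.BF2.pf_GLO (Pool.Agent.H96.BF.pf_LO all_ZER) Pool.Agent.H20.BF2.pf_LI
    Pool.Agent.H33.BF.pf_ORD

theorem all_CAS : T_CAS :=
  Pool.Agent.H33.BF.pf_CAS (Pool.Agent.H19.BF.pf_RZ all_DHO) Pool.Agent.H64.BF.pf_MPA
    Pool.Agent.H64.BF.pf_MPB Pool.Agent.H34.BF.pf_CON Pool.Agent.H19.BF.pf_POL all_DHO

theorem all_MN : T_MN := pf_MN all_SOL all_GLO all_CAS

theorem all_TRU : T_TRU := Pool.Agent.H56.BF.pf_TRU all_MN

theorem all_COV : T_COV := Pool.Agent.H56.BF.pf_COV all_MN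

theorem all_PLA : T_PLA := Pool.Agent.H34.BF.pf_PLA all_MN

theorem all_IMG : T_IMG := Pool.Agent.H64.BF.pf_IMG

end Pool.Agent.H92.BF
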