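import Pool.Agent.H27.LV.All

/-!
# MP_70ba79_ag: complements of the curves `F(x,y) = 1`, `F` a binary form

Common definitions of the modules of the board `bin_modules`. `F` is the product of the linear forms
`a i 0 * X0 + a i 1 * X1`, `i < m`, pairwise linearly independent. `x : Fin 2 → K` is a point.
-/

set_option autoImplicit false

namespace Pool.Agent.H92.BF

open MvPolynomial SC Pool.Agent.H27.LV

section

variable {k : Type} [Field k] {m : ℕ}

/-- the linear form `a 0 * X0 + a 1 * X1` -/
noncomputable def lf (a : Fin 2 → k) : MvPolynomial (Fin 2) k := C (a 0) * X 0 + C (a 1) * X 1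

/-- the form `F` -/
noncomputable def FF (a : Fin m → Fin 2 → k) : MvPolynomial (Fin 2) k := ∏ i, lf (a i)

/-- the product of the linear forms other than number `i` -/
noncomputable def Gi (a : Fin m → Fin 2 → k) (i : Fin m) : MvPolynomial (Fin 2) k :=
  ∏ j ∈ Finset.univ.erase i, lf (a j)

/-- the linear forms are pairwise independent -/
def Pw (a : Fin m → Fin 2 → k) : Prop := ∀ i j, i ≠ j → a i 0 * a j 1 - a i 1 * a j 0 ≠ 0

/-- the zero of the linear form `a` -/
def rt (a : Fin 2 → k) : Fin 2 → k := ![a 1, -a 0]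

/-- the functional determinant -/
noncomputable def Jc (A B : MvPolynomial (Fin 2) k) : MvPolynomial (Fin 2) k :=
  pderiv 0 A * pderiv 1 B - pderiv 1 A * pderiv 0 B

/-- The pairs of forms `α` (degree `d`), `γ` (degree `d - 2`) for which the operator `RR` vanishes at
the zeros of `F`. -/
structure Sol (a : Fin m → Fin 2 → k) (d : ℕ) (α γ : MvPolynomial (Fin 2) k) : Prop where
  ha : α.IsHomogeneous d
  hg : γ.IsHomogeneous (d - 2)
  ne : α ≠ 0
  rel : ∀ i, (d : k) * eval (rt (a i)) γ * eval (rt (a i)) (Gi a i) =
    2 * eval (rt (a i)) (Jc (Gi a i) α)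

/-- `P(1, T)` -/
noncomputable def dh (P : MvPolynomial (Fin 2) k) : Polynomial k := aeval ![1, Polynomial.X] P

/-- denominator of the function `Θ` -/
noncomputable def Td (d : ℕ) (F α : MvPolynomial (Fin 2) k) : Polynomial k :=
  Polynomial.C (d : k) * dh F * dh α

/-- numerator of the function `Θ` -/
noncomputable def Tn (m d : ℕ) (F α γ : MvPolynomial (Fin 2) k) : Polynomial k :=
  Polynomial.C (2 * (d : k)) * Polynomial.derivative (dh F) * dh α +
    Polynomial.C (d : k) * dh F * dh γ -
    Polynomial.C (2 * ((m : k) - 1)) * dh F * Polynomial.derivative (dh α)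

/-- `σ = A / B` satisfies `σ' = - N Θ σ`, `Θ = U / V` -/
def IdS (U V : Polynomial k) (N : ℕ) (A B : Polynomial k) : Prop :=
  (Polynomial.derivative A * B - A * Polynomial.derivative B) * V =
    -(Polynomial.C (N : k) * U * A * B)

/-- `b = A / B` satisfies `b' = Θ b + 1`, `Θ = U / V` -/
def IdB (U V A B : Polynomial k) : Prop :=
  (Polynomial.derivative A * B - A * Polynomial.derivative B) * V = U * A * B + V * B ^ 2

end

section

variable {k K : Type} [Field k] [Field K] [Algebra k K]

/-- the determinant of `x` and its derivative -/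
def wr (δ : Derivation k K K) (x : Fin 2 → K) : K := x 0 * δ (x 1) - x 1 * δ (x 0)

/-- the operator `d * α (w' - w) + 2 (m - 1) α' w - d * γ w ^ 2`, `w = wr δ x` -/
noncomputable def RR (m d : ℕ) (α γ : MvPolynomial (Fin 2) k) (δ : Derivation k K K)
    (x : Fin 2 → K) : K :=
  (d : K) * aeval x α * (δ (wr δ x) - wr δ x) + 2 * ((m : K) - 1) * δ (aeval x α) * wr δ x -
    (d : K) * aeval x γ * wr δ x ^ 2

/-- the image of the curve is contained in an algebraic curve of degree at most `N` -/
def InCurve (k : Type) {K : Type} [Field k] [Field K] [Algebra k K] (N : ℕ) (x : Fin 2 → K) :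
    Prop := ∃ P : MvPolynomial (Fin 2) k, P ≠ 0 ∧ P.totalDegree ≤ N ∧ aeval x P = 0

end

end Pool.Agent.H92.BF
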