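import Pool.Agent.H92.BF.All

/-!
# MP_70ba79_ag: final form of the theorem of the board `bin_modules`
-/

set_option autoImplicit false

namespace Pool.Agent.H92.BF

open MvPolynomial SC Pool.Agent.H27.LV

theorem img_bound {k K : Type} [Field k] [IsAlgClosed k] [CharZero k] [Field K] [Algebra k K]
    [Algebra.EssFiniteType k K] (htr : Algebra.trdeg k K = 1) (x : Fin 2 → K) (B : ℕ) (c : ℤ)
    (χ : ℤ) (hc : 1 ≤ c) (h : c * deg k x ≤ 3 * χ ∨ InCurve k B x) :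
    ∃ P : MvPolynomial (Fin 2) k, P ≠ 0 ∧ (P.totalDegree : ℤ) ≤ max (B : ℤ) (6 * χ + 1) ∧
      aeval x P = 0 := by
  rcases h with h | ⟨P, h1, h2, h3⟩
  · obtain ⟨P, h1, h2, h3⟩ := all_IMG k K htr x
    refine ⟨P, h1, ?_, h3⟩
    have h4 : (P.totalDegree : ℤ) ≤ 2 * deg k x + 1 := by exact_mod_cast h2
    have h5 : (0 : ℤ) ≤ deg k x := Int.natCast_nonneg _
    have h6 : (deg k x : ℤ) ≤ c * deg k x := by nlinarith
    refine le_trans h4 (le_trans ?_ (le_max_right _ _))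
    linarith
  · refine ⟨P, h1, le_trans ?_ (le_max_left _ _), h3⟩
    exact_mod_cast h2

theorem fin_all (k : Type) [Field k] [IsAlgClosed k] [CharZero k] (m : ℕ)
    (a : Fin m → Fin 2 → k) (hm : 7 ≤ m) (ha : Pw a) : ∃ B : ℕ,
    (∀ (K : Type) [Field K] [Algebra k K] [Algebra.EssFiniteType k K], Algebra.trdeg k K = 1 →
    ∀ (D : Derivation k K K), D ≠ 0 → ∀ (x : Fin 2 → K) (S : Finset (DV k K)),
    -- the complement of the line at infinity and the curve `F = 1`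
    ((∀ v, v ∉ S → 0 ≤ v.ord (x 0) ∧ 0 ≤ v.ord (x 1) ∧ v.ord (aeval x (FF a) - 1) = 0) →
      ((((m + 1) / 2 : ℕ) - 3 : ℤ) * deg k x ≤ 3 * (canDeg D + S.card) ∨ InCurve k B x) ∧
      ∃ P : MvPolynomial (Fin 2) k, P ≠ 0 ∧
        (P.totalDegree : ℤ) ≤ max (B : ℤ) (6 * (canDeg D + S.card) + 1) ∧ aeval x P = 0) ∧
    -- the complement of the projective curve `F = z ^ m`
    (13 ≤ m → (∀ v, v ∉ S → v.ord (aeval x (FF a) - 1) = -(m * poleOrder v x)) →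
      ((((m + 1) / 2 : ℕ) - 6 : ℤ) * deg k x ≤ 3 * (canDeg D + S.card) ∨ InCurve k B x) ∧
      ∃ P : MvPolynomial (Fin 2) k, P ≠ 0 ∧
        (P.totalDegree : ℤ) ≤ max (B : ℤ) (6 * (canDeg D + S.card) + 1) ∧ aeval x P = 0) ∧
    -- the affine surfaces `F = 1 + t ^ μ`
    (∀ (μ : ℕ) (t : K), 1 ≤ μ → (∀ v, v ∉ S → 0 ≤ v.ord (x 0) ∧ 0 ≤ v.ord (x 1)) →
      aeval x (FF a) = 1 + t ^ μ →
      ((((m + 1) / 2 : ℕ) - 3) * μ - 3 * m : ℤ) * deg k x ≤ 3 * μ * (canDeg D + S.card) ∨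
      InCurve k B x)) := by
  obtain ⟨B1, h1⟩ := all_MN k m a hm ha
  obtain ⟨B3, h3⟩ := all_COV k m a hm ha
  have h2 : ∃ B2 : ℕ, 13 ≤ m →
      ∀ (K : Type) [Field K] [Algebra k K] [Algebra.EssFiniteType k K], Algebra.trdeg k K = 1 →
      ∀ (D : Derivation k K K), D ≠ 0 → ∀ (x : Fin 2 → K) (S : Finset (DV k K)),
      (∀ v, v ∉ S → v.ord (aeval x (FF a) - 1) = -(m * poleOrder v x)) →
      (((m + 1) / 2 : ℕ) - 6 : ℤ) * deg k x ≤ 3 * (canDeg D + S.card) ∨ InCurve k B2 x := by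
    by_cases h13 : 13 ≤ m
    · obtain ⟨B2, h⟩ := all_PLA k m a h13 ha
      exact ⟨B2, fun _ => h⟩
    · exact ⟨0, fun h => absurd h h13⟩
  obtain ⟨B2, h2⟩ := h2
  refine ⟨max B1 (max B2 B3), ?_⟩
  intro K _ _ _ htr D hD x S
  have m1 : B1 ≤ max B1 (max B2 B3) := le_max_left _ _
  have m2 : B2 ≤ max B1 (max B2 B3) := le_trans (le_max_left _ _) (le_max_right _ _)
  have m3 : B3 ≤ max B1 (max B2 B3) := le_trans (le_max_right _ _) (le_max_right _ _)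
  refine ⟨?_, ?_, ?_⟩
  · intro hS
    have h4 := (h1 K htr D hD x S hS).imp_right fun h => h.mono m1
    exact ⟨h4, img_bound htr x _ _ _ (by omega) h4⟩
  · intro h13 hS
    have h4 := (h2 h13 K htr D hD x S hS).imp_right fun h => h.mono m2
    exact ⟨h4, img_bound htr x _ _ _ (by omega) h4⟩
  · intro μ t hμ hS ht
    exact (h3 μ hμ K htr D hD x t S hS ht).imp_right fun h => h.mono m3

end Pool.Agent.H92.BF
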