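import Pool.Agent.H92.BF.All

/-!
# MP_70ba79_ag: the theorem of the board `bin_modules` for orbifold pairs
-/

set_option autoImplicit false

namespace Pool.Agent.H92.BF

open MvPolynomial SC Pool.Agent.H27.LV

/-- intersection multiplicity of the curve `(1 : x)` and the plane curve `F = z ^ m` at the place `v`,
`F = FF a` -/
noncomputable def meetC {k K : Type} [Field k] [Field K] [Algebra k K] {m : ℕ}
    (a : Fin m → Fin 2 → k) (x : Fin 2 → K) (v : DV k K) : ℤ :=
  v.ord (aeval x (FF a) - 1) + m * poleOrder v x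

theorem meetC_nonneg {k K : Type} [Field k] [Field K] [Algebra k K] {m : ℕ}
    (a : Fin m → Fin 2 → k) (x : Fin 2 → K) (v : DV k K) : 0 ≤ meetC a x v := by
  unfold meetC
  have h0 : (0 : ℤ) ≤ m * poleOrder v x := by positivity
  have h1 : ge v (-(m * poleOrder v x : ℤ)) (aeval x (FF a) - 1) :=
    (Pool.Agent.H56.BF.ge_FF v x a).sub ((ge_one v).mono (by linarith))
  rcases h1 with h1 | h1
  · rw [h1, v.ord_zero]
    linarith
  · linarith

theorem orb (k : Type) [Field k] [IsAlgClosed k] [CharZero k] (m : ℕ)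
    (a : Fin m → Fin 2 → k) (hm : 7 ≤ m) (ha : Pw a) : ∃ B : ℕ,
    ∀ (K : Type) [Field K] [Algebra k K] [Algebra.EssFiniteType k K], Algebra.trdeg k K = 1 →
    ∀ (D : Derivation k K K), D ≠ 0 → ∀ (x : Fin 2 → K) (S : Finset (DV k K)) (s t c : ℚ),
    0 ≤ s → 0 ≤ t → c = ((m + 1) / 2 : ℕ) - 3 - 3 * s - 3 * m * t → 0 < c →
    (∀ v, v ∉ S → 0 < poleOrder v x → 1 ≤ s * poleOrder v x) →
    (∀ v, v ∉ S → 0 < meetC a x v → 1 ≤ t * meetC a x v) →
    (c * deg k x ≤ 3 * (canDeg D + S.card) ∨ InCurve k B x) ∧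
    ∃ P : MvPolynomial (Fin 2) k, P ≠ 0 ∧ aeval x P = 0 ∧
      (P.totalDegree : ℚ) ≤ max (B : ℚ) (6 * (canDeg D + S.card) / c + 1) := by
  classical
  obtain ⟨B, hB⟩ := all_MN k m a hm ha
  refine ⟨B, ?_⟩
  intro K _ _ _ htr D hD x S s t c hs ht hc hc0 hpS hmS
  have hmain : c * deg k x ≤ 3 * (canDeg D + S.card) ∨ InCurve k B x := by
    obtain ⟨hf, hsum⟩ := pfm k K htr (aeval x (FF a) - 1)
    have hp := pfi k K htr (Fin 2) x
    obtain ⟨T, hT⟩ : ∃ T : Finset (DV k K), T = hf.toFinset ∪ hp.toFinset := ⟨_, rfl⟩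
    have hT1 : ∀ v : DV k K, v.ord (aeval x (FF a) - 1) ≠ 0 → v ∈ T := fun v hv => by
      rw [hT]
      exact Finset.mem_union_left _ (hf.mem_toFinset.2 hv)
    have hT2 : ∀ v : DV k K, poleOrder v x ≠ 0 → v ∈ T := fun v hv => by
      rw [hT]
      exact Finset.mem_union_right _ (hp.mem_toFinset.2 hv)
    have e1 : ∑ v ∈ T, v.ord (aeval x (FF a) - 1) = 0 := by
      rw [← hsum]
      refine (finsum_eq_sum_of_support_subset _ fun v hv => ?_).symm
      exact hT1 v hv
    have e2 : deg k x = ∑ v ∈ T, poleOrder v x := by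
      unfold deg
      refine finsum_eq_sum_of_support_subset _ fun v hv => ?_
      exact hT2 v hv
    have e3 : ∑ v ∈ T, meetC a x v = m * deg k x := by
      unfold meetC
      rw [Finset.sum_add_distrib, e1, zero_add, ← Finset.mul_sum, e2]
      push_cast
      rfl
    set P : Finset (DV k K) := T.filter fun v => v ∉ S ∧ 0 < poleOrder v x with hP
    set Q : Finset (DV k K) := T.filter fun v => v ∉ S ∧ 0 < meetC a x v with hQ
    have hPc : (P.card : ℚ) ≤ s * deg k x := by
      have h1 : (P.card : ℚ) ≤ ∑ v ∈ P, s * poleOrder v x := by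
        rw [Finset.card_eq_sum_ones]
        push_cast
        refine Finset.sum_le_sum fun v hv => ?_
        obtain ⟨-, h2, h3⟩ := Finset.mem_filter.1 hv
        exact hpS v h2 h3
      refine h1.trans ?_
      rw [e2]
      push_cast
      rw [Finset.mul_sum]
      exact Finset.sum_le_sum_of_subset_of_nonneg (Finset.filter_subset _ _)
        fun v _ _ => by positivity
    have hQc : (Q.card : ℚ) ≤ t * (m * deg k x) := by
      have h1 : (Q.card : ℚ) ≤ ∑ v ∈ Q, t * meetC a x v := by
        rw [Finset.card_eq_sum_ones]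
        push_cast
        refine Finset.sum_le_sum fun v hv => ?_
        obtain ⟨-, h2, h3⟩ := Finset.mem_filter.1 hv
        exact hmS v h2 h3
      refine h1.trans ?_
      have h4 : ((m : ℚ) * deg k x) = ∑ v ∈ T, (meetC a x v : ℚ) := by
        have := congrArg (fun z : ℤ => (z : ℚ)) e3
        push_cast at this
        exact this.symm
      rw [h4, Finset.mul_sum]
      refine Finset.sum_le_sum_of_subset_of_nonneg (Finset.filter_subset _ _)
        fun v _ _ => mul_nonneg ht ?_
      exact_mod_cast meetC_nonneg a x v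
    have key := hB K htr D hD x (S ∪ (P ∪ Q)) fun v hv => ?_
    · rcases key with h | h
      · left
        have h1 : ((S ∪ (P ∪ Q)).card : ℚ) ≤ S.card + (P.card + Q.card) := by
          have h2 := Finset.card_union_le S (P ∪ Q)
          have h3 := Finset.card_union_le P Q
          have h4 : (S ∪ (P ∪ Q)).card ≤ S.card + (P.card + Q.card) := by omega
          exact_mod_cast h4
        have h5 : ((((m + 1) / 2 : ℕ) : ℚ) - 3) * deg k x ≤
            3 * ((canDeg D : ℚ) + (S ∪ (P ∪ Q)).card) := by exact_mod_cast h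
        rw [hc]
        nlinarith
      · exact Or.inr h
    · rw [Finset.mem_union, Finset.mem_union, not_or, not_or] at hv
      obtain ⟨hv1, hv2, hv3⟩ := hv
      have h0 : poleOrder v x = 0 := by
        by_contra hcon
        exact hv2 (Finset.mem_filter.2 ⟨hT2 v hcon, hv1, Nat.pos_of_ne_zero hcon⟩)
      refine ⟨Pool.Agent.H34.BF.pla_int x v h0 0, Pool.Agent.H34.BF.pla_int x v h0 1, ?_⟩
      by_contra hcon
      have h1 := meetC_nonneg a x v
      have h2 : meetC a x v = v.ord (aeval x (FF a) - 1) := by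
        unfold meetC
        rw [h0]
        simp
      refine hv3 (Finset.mem_filter.2 ⟨hT1 v hcon, hv1, ?_⟩)
      rcases h1.lt_or_eq with h3 | h3
      · exact h3
      · exact absurd (h2.symm.trans h3.symm) hcon
  refine ⟨hmain, ?_⟩
  rcases hmain with h | ⟨P, h1, h2, h3⟩
  · obtain ⟨P, h1, h2, h3⟩ := all_IMG k K htr x
    refine ⟨P, h1, h3, ?_⟩
    have h4 : (P.totalDegree : ℚ) ≤ 2 * deg k x + 1 := by exact_mod_cast h2
    have h5 : (deg k x : ℚ) ≤ 3 * (canDeg D + S.card) / c := by
      rw [le_div_iff₀ hc0]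
      linarith
    refine h4.trans (le_trans ?_ (le_max_right _ _))
    have h6 : 6 * ((canDeg D : ℚ) + S.card) / c = 2 * (3 * (canDeg D + S.card) / c) := by ring
    rw [h6]
    linarith
  · refine ⟨P, h1, h3, le_trans ?_ (le_max_left _ _)⟩
    exact_mod_cast h2

end Pool.Agent.H92.BF
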