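import Pool.Agent.H92.BF.Defs

/-!
# MP_70ba79_ag: targets of the board `bin_modules`
-/

set_option autoImplicit false

namespace Pool.Agent.H92.BF

open MvPolynomial SC Pool.Agent.H27.LV

/-! ### Algebra -/

/-- DV: derivative of a value -/
def T_DV : Prop := ∀ (k K : Type) [Field k] [Field K] [Algebra k K] (δ : Derivation k K K)
  (x : Fin 2 → K) (P : MvPolynomial (Fin 2) k),
  δ (aeval x P) = aeval x (pderiv 0 P) * δ (x 0) + aeval x (pderiv 1 P) * δ (x 1)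

/-- JAC: for forms of degrees `p`, `q` -/
def T_JAC : Prop := ∀ (k K : Type) [Field k] [Field K] [Algebra k K] (δ : Derivation k K K)
  (x : Fin 2 → K) (p q : ℕ) (A B : MvPolynomial (Fin 2) k), A.IsHomogeneous p →
  B.IsHomogeneous q →
  (p : K) * aeval x A * δ (aeval x B) - (q : K) * aeval x B * δ (aeval x A) =
    aeval x (Jc A B) * wr δ x

/-- BFR: a nonzero binary form of degree less than `m` does not vanish at the `m` points `rt (a i)` -/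
def T_BFR : Prop := ∀ (k : Type) [Field k] (m e : ℕ) (a : Fin m → Fin 2 → k), Pw a → e < m →
  ∀ γ : MvPolynomial (Fin 2) k, γ.IsHomogeneous e → (∀ i, eval (rt (a i)) γ = 0) → γ = 0

/-- SOL: existence of `α` and `γ` -/
def T_SOL : Prop := ∀ (k : Type) [Field k] [CharZero k] (m d : ℕ) (a : Fin m → Fin 2 → k), Pw a →
  2 ≤ d → m < 2 * d → d < m + 2 → ∃ α γ, Sol a d α γ

/-- DHO: values of forms in terms of `r = x 1 / x 0` -/
def T_DHO : Prop := ∀ (k K : Type) [Field k] [Field K] [Algebra k K] (x : Fin 2 → K) (p : ℕ)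
  (P : MvPolynomial (Fin 2) k), P.IsHomogeneous p → x 0 ≠ 0 →
  aeval x P = x 0 ^ p * Polynomial.aeval (x 1 / x 0) (dh P) ∧ (P ≠ 0 → dh P ≠ 0)

/-! ### Local estimates -/

/-- ZER: the operator vanishes at a zero of `F` where `δ` is regular and `δ z = z - 1` -/
def T_ZER : Prop := ∀ (k K : Type) [Field k] [Field K] [Algebra k K] (v : DV k K)
  (δ : Derivation k K K) (m d : ℕ) (a : Fin m → Fin 2 → k) (α γ : MvPolynomial (Fin 2) k)
  (x : Fin 2 → K), Pw a → 2 ≤ m → 2 ≤ d → Sol a d α γ →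
  (∀ z : K, 0 ≤ v.ord z → ge v 0 (δ z)) → 0 ≤ v.ord (x 0) → 0 ≤ v.ord (x 1) → δ (aeval x (FF a)) = aeval x (FF a) - 1 →
  ge v 1 (aeval x (FF a)) → ge v 1 (RR m d α γ δ x)

/-- LO: local estimate outside `S`; `z = F(x)` -/
def T_LO : Prop := ∀ (k K : Type) [Field k] [Field K] [Algebra k K] (v : DV k K)
  (δ : Derivation k K K) (m d n : ℕ) (a : Fin m → Fin 2 → k) (α γ : MvPolynomial (Fin 2) k)
  (x : Fin 2 → K), Pw a → 3 ≤ m → 2 ≤ d → Sol a d α γ →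
  (∀ z : K, 0 ≤ v.ord z → ge v (-(n : ℤ)) (δ z)) →
  (∀ z : K, z ≠ 0 → ge v (v.ord z - 1 - n) (δ z)) →
  0 ≤ v.ord (x 0) → 0 ≤ v.ord (x 1) → δ (aeval x (FF a)) = aeval x (FF a) - 1 →
  aeval x (FF a) ≠ 0 → (v.ord (aeval x (FF a)) ≠ 0 → v.ord (aeval x (FF a)) = n + 1) →
  ge v (v.ord (aeval x (FF a)) - 3 * n) (RR m d α γ δ x)

/-- LI: local estimate at the places of `S` -/
def T_LI : Prop := ∀ (k K : Type) [Field k] [Field K] [Algebra k K] (v : DV k K)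
  (δ : Derivation k K K) (m d n : ℕ) (a : Fin m → Fin 2 → k) (α γ : MvPolynomial (Fin 2) k)
  (x : Fin 2 → K), Pw a → 3 ≤ m → 2 ≤ d → d + 2 ≤ m → Sol a d α γ →
  (∀ z : K, z ≠ 0 → ge v (v.ord z - n) (δ z)) → aeval x (FF a) ≠ 0 →
  (0 < v.ord (aeval x (FF a)) → v.ord (aeval x (FF a)) = n) →
  ge v (v.ord (aeval x (FF a)) + ((m : ℤ) - d - 2) * poleOrder v x - 3 * n) (RR m d α γ δ x)

/-! ### The inequality -/

/-- the derivation `u d/du` -/
noncomputable def dlog {k K : Type} [Field k] [Field K] [Algebra k K] (D : Derivation k K K)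
    (u : K) : Derivation k K K := (u / D u) • D

/-- ORD: orders for `δ = u d/du`: `n v = ord (D u) - ord u - ordD + [v ∈ S]` -/
def T_ORD : Prop := ∀ (k K : Type) [Field k] [IsAlgClosed k] [CharZero k] [Field K] [Algebra k K]
  [Algebra.EssFiniteType k K], Algebra.trdeg k K = 1 → ∀ (D : Derivation k K K), D ≠ 0 →
  ∀ (u : K), D u ≠ 0 → ∀ S : Finset (DV k K), (∀ v, v ∉ S → v.ord u = 0) →
  (dlog D u) u = u ∧
  ∃ n : DV k K → ℕ, {v | n v ≠ 0}.Finite ∧ (∑ᶠ v, (n v : ℤ) = canDeg D + S.card) ∧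
  (∀ v, v ∉ S → (∀ z : K, 0 ≤ v.ord z → ge v (-(n v : ℤ)) (dlog D u z)) ∧
    (∀ z : K, z ≠ 0 → ge v (v.ord z - 1 - n v) (dlog D u z)) ∧
    (v.ord (u + 1) ≠ 0 → v.ord (u + 1) = n v + 1)) ∧
  (∀ v, v ∈ S → (∀ z : K, z ≠ 0 → ge v (v.ord z - n v) (dlog D u z)) ∧
    (0 < v.ord (u + 1) → v.ord (u + 1) = n v))

/-- GLO: the inequality, if the operator does not vanish -/
def T_GLO : Prop := ∀ (k K : Type) [Field k] [IsAlgClosed k] [CharZero k] [Field K] [Algebra k K]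
  [Algebra.EssFiniteType k K], Algebra.trdeg k K = 1 → ∀ (m d : ℕ) (a : Fin m → Fin 2 → k)
  (α γ : MvPolynomial (Fin 2) k), Pw a → 3 ≤ m → 2 ≤ d → d + 2 ≤ m → Sol a d α γ →
  ∀ (D : Derivation k K K), D ≠ 0 → ∀ (x : Fin 2 → K) (S : Finset (DV k K)),
  (∀ v, v ∉ S → 0 ≤ v.ord (x 0) ∧ 0 ≤ v.ord (x 1) ∧ v.ord (aeval x (FF a) - 1) = 0) →
  D (aeval x (FF a)) ≠ 0 → RR m d α γ (dlog D (aeval x (FF a) - 1)) x ≠ 0 →
  ((m : ℤ) - d - 2) * deg k x ≤ 3 * (canDeg D + S.card)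

/-! ### The case where the operator vanishes -/

/-- RZ: the differential equation of `s = dY / dr`, `Y = 1 / F(x)`, `r = x 1 / x 0` -/
def T_RZ : Prop := ∀ (k K : Type) [Field k] [CharZero k] [Field K] [Algebra k K]
  (δ : Derivation k K K) (m d : ℕ) (F α γ : MvPolynomial (Fin 2) k) (x : Fin 2 → K), 1 ≤ m →
  2 ≤ d → F.IsHomogeneous m → α.IsHomogeneous d → γ.IsHomogeneous (d - 2) → α ≠ 0 → x 0 ≠ 0 →
  aeval x F ≠ 0 → δ (aeval x F) = aeval x F - 1 → aeval x F ≠ 1 → δ (x 1 / x 0) ≠ 0 →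
  RR m d α γ δ x = 0 → ∀ s : K, s = δ (aeval x F)⁻¹ / δ (x 1 / x 0) →
  δ s * Polynomial.aeval (x 1 / x 0) (Td d F α) =
    -(Polynomial.aeval (x 1 / x 0) (Tn m d F α γ) * s * δ (x 1 / x 0))

/-- MPA: minimal polynomial of `s`: an algebraic solution of `s' = - Θ s` gives a rational solution of
`σ' = - N Θ σ` -/
def T_MPA : Prop := ∀ (k K : Type) [Field k] [CharZero k] [Field K] [Algebra k K]
  (δ : Derivation k K K) (r s : K) (U V : Polynomial k), δ r = 1 →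
  Algebra.IsAlgebraic (IntermediateField.adjoin k {r}) K → V ≠ 0 → s ≠ 0 →
  δ s * Polynomial.aeval r V = -(Polynomial.aeval r U * s) →
  ∃ (N : ℕ) (A B : Polynomial k), 1 ≤ N ∧ A ≠ 0 ∧ B ≠ 0 ∧ IdS U V N A B

/-- MPB: minimal polynomial of `b`: an algebraic solution of `b' = Θ b + 1` gives a rational one -/
def T_MPB : Prop := ∀ (k K : Type) [Field k] [CharZero k] [Field K] [Algebra k K]
  (δ : Derivation k K K) (r b : K) (U V : Polynomial k), δ r = 1 →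
  Algebra.IsAlgebraic (IntermediateField.adjoin k {r}) K → V ≠ 0 →
  δ b * Polynomial.aeval r V = Polynomial.aeval r U * b + Polynomial.aeval r V →
  ∃ A B : Polynomial k, B ≠ 0 ∧ IdB U V A B

/-- CON: the relation between `Y` and `r` -/
def T_CON : Prop := ∀ (k K : Type) [Field k] [CharZero k] [Field K] [Algebra k K]
  (δ : Derivation k K K) (r s Y : K) (U V A1 B1 A2 B2 : Polynomial k) (N : ℕ), δ r = 1 →
  (∀ z : K, δ z = 0 → z ∈ Set.range (algebraMap k K)) → V ≠ 0 → 1 ≤ N → A1 ≠ 0 → B1 ≠ 0 →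
  B2 ≠ 0 → IdS U V N A1 B1 → IdB U V A2 B2 → s ≠ 0 →
  δ s * Polynomial.aeval r V = -(Polynomial.aeval r U * s) → δ Y = s →
  ∃ c β : k, (Y - algebraMap k K β) ^ N * Polynomial.aeval r (B1 * B2 ^ N) =
    algebraMap k K c * Polynomial.aeval r (A2 ^ N * A1)

/-- POL: from the relation to a plane curve of bounded degree -/
def T_POL : Prop := ∀ (k K : Type) [Field k] [CharZero k] [Field K] [Algebra k K] (m N M : ℕ)
  (F : MvPolynomial (Fin 2) k) (U V : Polynomial k) (x : Fin 2 → K) (c β : k),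
  F.IsHomogeneous m → 1 ≤ m → 1 ≤ N → U ≠ 0 → U.natDegree ≤ M → V.natDegree ≤ M → x 0 ≠ 0 →
  aeval x F ≠ 0 →
  ((aeval x F)⁻¹ - algebraMap k K β) ^ N * Polynomial.aeval (x 1 / x 0) U =
    algebraMap k K c * Polynomial.aeval (x 1 / x 0) V →
  InCurve k (M + m * N) x

/-- CAS: the case where the operator vanishes -/
def T_CAS : Prop := ∀ (k : Type) [Field k] [IsAlgClosed k] [CharZero k] (m d : ℕ)
  (F α γ : MvPolynomial (Fin 2) k), 1 ≤ m → 2 ≤ d → F.IsHomogeneous m → F ≠ 0 →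
  α.IsHomogeneous d → γ.IsHomogeneous (d - 2) → α ≠ 0 → ∃ B : ℕ,
  ∀ (K : Type) [Field K] [Algebra k K] [Algebra.EssFiniteType k K], Algebra.trdeg k K = 1 →
  ∀ (D : Derivation k K K), D ≠ 0 → ∀ x : Fin 2 → K,
  RR m d α γ (dlog D (aeval x F - 1)) x = 0 → InCurve k B x

/-! ### Main theorems -/

/-- MN: Q1 for the complement of the line at infinity and the curve `F = 1`. -/
def T_MN : Prop := ∀ (k : Type) [Field k] [IsAlgClosed k] [CharZero k] (m : ℕ)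
  (a : Fin m → Fin 2 → k), 7 ≤ m → Pw a → ∃ B : ℕ,
  ∀ (K : Type) [Field K] [Algebra k K] [Algebra.EssFiniteType k K], Algebra.trdeg k K = 1 →
  ∀ (D : Derivation k K K), D ≠ 0 → ∀ (x : Fin 2 → K) (S : Finset (DV k K)),
  (∀ v, v ∉ S → 0 ≤ v.ord (x 0) ∧ 0 ≤ v.ord (x 1) ∧ v.ord (aeval x (FF a) - 1) = 0) →
  (((m + 1) / 2 : ℕ) - 3 : ℤ) * deg k x ≤ 3 * (canDeg D + S.card) ∨ InCurve k B x

/-- IMG: the degree of the image and the degree of the map -/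
def T_IMG : Prop := ∀ (k K : Type) [Field k] [IsAlgClosed k] [CharZero k] [Field K] [Algebra k K]
  [Algebra.EssFiniteType k K], Algebra.trdeg k K = 1 → ∀ x : Fin 2 → K,
  InCurve k (2 * deg k x + 1) x

/-- TRU: truncated counting functions. `Z` are the zeros of `F(x) - 1` outside `S` -/
def T_TRU : Prop := ∀ (k : Type) [Field k] [IsAlgClosed k] [CharZero k] (m : ℕ)
  (a : Fin m → Fin 2 → k), 7 ≤ m → Pw a → ∃ B : ℕ,
  ∀ (K : Type) [Field K] [Algebra k K] [Algebra.EssFiniteType k K], Algebra.trdeg k K = 1 →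
  ∀ (D : Derivation k K K), D ≠ 0 → ∀ (x : Fin 2 → K) (S : Finset (DV k K)),
  (∀ v, v ∉ S → 0 ≤ v.ord (x 0) ∧ 0 ≤ v.ord (x 1)) →
  (((m + 1) / 2 : ℕ) - 3 : ℤ) * deg k x ≤
    3 * (canDeg D + S.card + {v | v ∉ S ∧ 0 < v.ord (aeval x (FF a) - 1)}.ncard) ∨
  InCurve k B x

/-- PLA: Q1 for the complement of the plane curve `F(x,y) = z ^ m`. The point `(1 : x 0 : x 1)` does
not meet the curve outside `S`. -/
def T_PLA : Prop := ∀ (k : Type) [Field k] [IsAlgClosed k] [CharZero k] (m : ℕ)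
  (a : Fin m → Fin 2 → k), 13 ≤ m → Pw a → ∃ B : ℕ,
  ∀ (K : Type) [Field K] [Algebra k K] [Algebra.EssFiniteType k K], Algebra.trdeg k K = 1 →
  ∀ (D : Derivation k K K), D ≠ 0 → ∀ (x : Fin 2 → K) (S : Finset (DV k K)),
  (∀ v, v ∉ S → v.ord (aeval x (FF a) - 1) = -(m * poleOrder v x)) →
  (((m + 1) / 2 : ℕ) - 6 : ℤ) * deg k x ≤ 3 * (canDeg D + S.card) ∨ InCurve k B x

/-- COV: Q1 for the affine surfaces `F(x,y) = 1 + t ^ μ` -/
def T_COV : Prop := ∀ (k : Type) [Field k] [IsAlgClosed k] [CharZero k] (m : ℕ)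
  (a : Fin m → Fin 2 → k), 7 ≤ m → Pw a → ∃ B : ℕ, ∀ μ : ℕ, 1 ≤ μ →
  ∀ (K : Type) [Field K] [Algebra k K] [Algebra.EssFiniteType k K], Algebra.trdeg k K = 1 →
  ∀ (D : Derivation k K K), D ≠ 0 → ∀ (x : Fin 2 → K) (t : K) (S : Finset (DV k K)),
  (∀ v, v ∉ S → 0 ≤ v.ord (x 0) ∧ 0 ≤ v.ord (x 1)) → aeval x (FF a) = 1 + t ^ μ →
  ((((m + 1) / 2 : ℕ) - 3) * μ - 3 * m : ℤ) * deg k x ≤ 3 * μ * (canDeg D + S.card) ∨
  InCurve k B x

end Pool.Agent.H92.BF
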