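import Pool.Agent.H92.BF.Targets

/-!
# MP_70ba79_ag: row ZER of the board `bin_modules`
-/

set_option autoImplicit false

namespace Pool.Agent.H92.BF

open MvPolynomial SC Pool.Agent.H27.LV

section

variable {k K : Type} [Field k] [Field K] [Algebra k K] {v : DV k K}

lemma ge0_iff {z : K} : ge v 0 z ↔ 0 ≤ v.ord z := by
  constructor
  · rintro (h | h)
    · rw [h, v.ord_zero]
    · exact h
  · exact Or.inr

lemma ge01 {z : K} (h : ge v 1 z) : ge v 0 z := h.mono (by norm_num)

lemma mul10 {x y : K} (hx : ge v 1 x) (hy : ge v 0 y) : ge v 1 (x * y) := by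
  simpa using hx.mul hy

lemma mul01 {x y : K} (hx : ge v 0 x) (hy : ge v 1 y) : ge v 1 (x * y) := by
  simpa using hx.mul hy

lemma mul00 {x y : K} (hx : ge v 0 x) (hy : ge v 0 y) : ge v 0 (x * y) := by
  simpa using hx.mul hy

/-- the maximal ideal is prime -/
lemma prime1 {x y : K} (hx : ge v 0 x) (hy : ge v 0 y) (h : ge v 1 (x * y)) :
    ge v 1 x ∨ ge v 1 y := by
  by_cases hx0 : x = 0
  · exact Or.inl (Or.inl hx0)
  by_cases hy0 : y = 0
  · exact Or.inr (Or.inl hy0)
  have h1 := h.resolve_left (mul_ne_zero hx0 hy0)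
  rw [v.ord_mul' hx0 hy0] at h1
  have h2 := hx.resolve_left hx0
  have h3 := hy.resolve_left hy0
  by_cases h4 : 1 ≤ v.ord x
  · exact Or.inl (Or.inr h4)
  · exact Or.inr (Or.inr (by omega))

lemma not_ge1_one : ¬ ge v 1 (1 : K) := by
  rintro (h | h)
  · exact one_ne_zero h
  · rw [v.ord_one] at h
    omega

/-- a product of integral elements in the maximal ideal -/
lemma prime_prod {ι : Type*} (s : Finset ι) (f : ι → K) (hf : ∀ i ∈ s, ge v 0 (f i))
    (h : ge v 1 (∏ i ∈ s, f i)) : ∃ i ∈ s, ge v 1 (f i) := by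
  classical
  induction s using Finset.induction_on with
  | empty =>
    rw [Finset.prod_empty] at h
    exact absurd h not_ge1_one
  | insert a s ha ih =>
    rw [Finset.prod_insert ha] at h
    have h0 : ge v 0 (∏ i ∈ s, f i) := by
      have : ∀ t : Finset ι, t ⊆ s → ge v 0 (∏ i ∈ t, f i) := by
        intro t
        induction t using Finset.induction_on with
        | empty => intro _; rw [Finset.prod_empty]; exact ge_one v
        | insert b t hb iht =>
          intro hsub
          rw [Finset.prod_insert hb]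
          exact mul00 (hf b (Finset.mem_insert_of_mem (hsub (Finset.mem_insert_self _ _))))
            (iht fun i hi => hsub (Finset.mem_insert_of_mem hi))
      exact this s (Finset.Subset.refl _)
    rcases prime1 (hf a (Finset.mem_insert_self _ _)) h0 h with h1 | h1
    · exact ⟨a, Finset.mem_insert_self _ _, h1⟩
    · obtain ⟨i, hi, h2⟩ := ih (fun i hi => hf i (Finset.mem_insert_of_mem hi)) h1
      exact ⟨i, Finset.mem_insert_of_mem hi, h2⟩

/-- values of polynomials at congruent integral points -/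
lemma aeval_congr (x y : Fin 2 → K) (hx : ∀ i, ge v 0 (x i)) (hxy : ∀ i, ge v 1 (x i - y i))
    (P : MvPolynomial (Fin 2) k) :
    ge v 0 (aeval x P) ∧ ge v 1 (aeval x P - aeval y P) := by
  have hy : ∀ i, ge v 0 (y i) := fun i => by
    have := (hx i).sub (ge01 (hxy i))
    rwa [sub_sub_cancel] at this
  have key : ge v 0 (aeval x P) ∧ ge v 0 (aeval y P) ∧ ge v 1 (aeval x P - aeval y P) := by
    induction P using MvPolynomial.induction_on with
    | C c =>
      rw [aeval_C, aeval_C, sub_self]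
      exact ⟨ge_const v c, ge_const v c, ge_zero v 1⟩
    | add P Q hP hQ =>
      rw [map_add, map_add]
      refine ⟨hP.1.add hQ.1, hP.2.1.add hQ.2.1, ?_⟩
      have e : aeval x P + aeval x Q - (aeval y P + aeval y Q) =
          (aeval x P - aeval y P) + (aeval x Q - aeval y Q) := by ring
      rw [e]
      exact hP.2.2.add hQ.2.2
    | mul_X P i hP =>
      rw [map_mul, map_mul, aeval_X, aeval_X]
      refine ⟨mul00 hP.1 (hx i), mul00 hP.2.1 (hy i), ?_⟩
      have e : aeval x P * x i - aeval y P * y i =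
          (aeval x P - aeval y P) * x i + aeval y P * (x i - y i) := by ring
      rw [e]
      exact (mul10 hP.2.2 (hx i)).add (mul01 hP.2.1 (hxy i))
  exact ⟨key.1, key.2.2⟩

lemma aeval_int (x : Fin 2 → K) (hx : ∀ i, ge v 0 (x i)) (P : MvPolynomial (Fin 2) k) :
    ge v 0 (aeval x P) :=
  (aeval_congr x x hx (fun i => by rw [sub_self]; exact ge_zero v 1) P).1

/-- homogeneity -/
lemma aeval_scale {p : ℕ} {P : MvPolynomial (Fin 2) k} (hP : P.IsHomogeneous p) (c : K)
    (x : Fin 2 → K) : aeval (fun i => c * x i) P = c ^ p * aeval x P := by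
  rw [aeval_def, aeval_def, eval₂_eq, eval₂_eq, Finset.mul_sum]
  refine Finset.sum_congr rfl fun d hd => ?_
  have h1 : ∏ i ∈ d.support, (c * x i) ^ d i = c ^ p * ∏ i ∈ d.support, x i ^ d i := by
    have h2 : d.degree = p := by
      by_contra hne
      exact (mem_support_iff.1 hd) (hP.coeff_eq_zero hne)
    simp only [mul_pow, Finset.prod_mul_distrib]
    rw [Finset.prod_pow_eq_pow_sum]
    congr 2
  rw [h1]
  ring

/-- the value at a constant point -/
lemma aeval_const (e : Fin 2 → k) (P : MvPolynomial (Fin 2) k) :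
    aeval (fun i => algebraMap k K (e i)) P = algebraMap k K (eval e P) := by
  induction P using MvPolynomial.induction_on with
  | C c => rw [aeval_C, eval_C]
  | add P Q hP hQ => rw [map_add, map_add, map_add, hP, hQ]
  | mul_X P i hP => rw [map_mul, map_mul, map_mul, hP, aeval_X, eval_X]

lemma rt_zero (a : Fin 2 → k) : rt a 0 = a 1 := rfl

lemma rt_one (a : Fin 2 → k) : rt a 1 = -a 0 := rfl

/-- a form which vanishes at the zero of a linear form which vanishes at the place -/
lemma ge1_of_root {p : ℕ} {H : MvPolynomial (Fin 2) k} (hH : H.IsHomogeneous p) (a : Fin 2 → k)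
    (ha : a ≠ 0) (hz : eval (rt a) H = 0) (x : Fin 2 → K) (hx : ∀ i, ge v 0 (x i))
    (hl : ge v 1 (aeval x (lf a))) : ge v 1 (aeval x H) := by
  have hl' : aeval x (lf a) = algebraMap k K (a 0) * x 0 + algebraMap k K (a 1) * x 1 := by
    unfold lf
    rw [map_add, map_mul, map_mul, aeval_C, aeval_C, aeval_X, aeval_X]
  rw [hl'] at hl
  -- a point proportional to the zero
  obtain ⟨c, hc, hc'⟩ : ∃ c : K, ge v 0 c ∧
      ∀ i, ge v 1 (x i - c * algebraMap k K (rt a i)) := by
    by_cases h1 : a 1 = 0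
    · have h0 : a 0 ≠ 0 := by
        intro h0
        apply ha
        funext i
        fin_cases i
        · exact h0
        · exact h1
      have h0' : algebraMap k K (a 0) ≠ 0 := by rwa [Ne, map_eq_zero]
      refine ⟨-(algebraMap k K (a 0)⁻¹ * x 1), (mul00 (ge_const v _) (hx 1)).neg, ?_⟩
      intro i
      fin_cases i
      · have e : x 0 - -(algebraMap k K (a 0)⁻¹ * x 1) * algebraMap k K (rt a 0) =
            algebraMap k K (a 0)⁻¹ * (algebraMap k K (a 0) * x 0 + algebraMap k K (a 1) * x 1) := by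
          rw [rt_zero]
          simp only [h1, map_zero, map_inv₀]
          field_simp
          ring
        change ge v 1 (x 0 - -(algebraMap k K (a 0)⁻¹ * x 1) * algebraMap k K (rt a 0))
        rw [e]
        exact mul01 (ge_const v _) hl
      · have e : x 1 - -(algebraMap k K (a 0)⁻¹ * x 1) * algebraMap k K (rt a 1) = 0 := by
          rw [rt_one]
          simp only [map_inv₀, map_neg]
          field_simp
          simp
        change ge v 1 (x 1 - -(algebraMap k K (a 0)⁻¹ * x 1) * algebraMap k K (rt a 1))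
        rw [e]
        exact ge_zero v 1
    · have h1' : algebraMap k K (a 1) ≠ 0 := by rwa [Ne, map_eq_zero]
      refine ⟨algebraMap k K (a 1)⁻¹ * x 0, mul00 (ge_const v _) (hx 0), ?_⟩
      intro i
      fin_cases i
      · have e : x 0 - algebraMap k K (a 1)⁻¹ * x 0 * algebraMap k K (rt a 0) = 0 := by
          rw [rt_zero]
          simp only [map_inv₀]
          field_simp
          simp
        change ge v 1 (x 0 - algebraMap k K (a 1)⁻¹ * x 0 * algebraMap k K (rt a 0))
        rw [e]
        exact ge_zero v 1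
      · have e : x 1 - algebraMap k K (a 1)⁻¹ * x 0 * algebraMap k K (rt a 1) =
            algebraMap k K (a 1)⁻¹ * (algebraMap k K (a 0) * x 0 + algebraMap k K (a 1) * x 1) := by
          rw [rt_one]
          simp only [map_inv₀, map_neg]
          field_simp
          ring
        change ge v 1 (x 1 - algebraMap k K (a 1)⁻¹ * x 0 * algebraMap k K (rt a 1))
        rw [e]
        exact mul01 (ge_const v _) hl
  have h1 := (aeval_congr x (fun i => c * algebraMap k K (rt a i)) hx hc' H).2
  rw [aeval_scale hH, aeval_const, hz, map_zero, mul_zero, sub_zero] at h1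
  exact h1

end

lemma aeval_lf {k K : Type} [Field k] [Field K] [Algebra k K] (a : Fin 2 → k) (x : Fin 2 → K) :
    aeval x (lf a) = algebraMap k K (a 0) * x 0 + algebraMap k K (a 1) * x 1 := by
  unfold lf
  rw [map_add, map_mul, map_mul, aeval_C, aeval_C, aeval_X, aeval_X]

lemma FF_eq {k : Type} [Field k] {m : ℕ} (a : Fin m → Fin 2 → k) (i : Fin m) :
    FF a = lf (a i) * Gi a i := by
  unfold FF Gi
  exact (Finset.mul_prod_erase Finset.univ (fun j => lf (a j)) (Finset.mem_univ i)).symm

lemma lf_homog {k : Type} [Field k] (a : Fin 2 → k) : (lf a).IsHomogeneous 1 := by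
  unfold lf
  have h : ∀ i, (C (a i) * X i : MvPolynomial (Fin 2) k).IsHomogeneous 1 := by
    intro i
    simpa using (isHomogeneous_C (Fin 2) (a i)).mul (isHomogeneous_X k i)
  exact (h 0).add (h 1)

lemma Gi_homog {k : Type} [Field k] {m : ℕ} (a : Fin m → Fin 2 → k) (i : Fin m) :
    (Gi a i).IsHomogeneous (m - 1) := by
  unfold Gi
  have h := IsHomogeneous.prod (Finset.univ.erase i) (fun j => lf (a j)) (fun _ => 1)
    (fun j _ => lf_homog (a j))
  simpa using h

lemma FF_homog {k : Type} [Field k] {m : ℕ} (a : Fin m → Fin 2 → k) :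
    (FF a).IsHomogeneous m := by
  unfold FF
  have h := IsHomogeneous.prod Finset.univ (fun j => lf (a j)) (fun _ => 1)
    (fun j _ => lf_homog (a j))
  simpa using h

/-- Row ZER. -/
theorem pf_ZER (hJAC : T_JAC) : T_ZER := by
  intro k K _ _ _ v δ m d a α γ x hPw hm hd hS hδ hx0 hx1 hz hzv
  have hδ' : ∀ z, ge v 0 z → ge v 0 (δ z) := fun z h => hδ z (ge0_iff.1 h)
  have hx : ∀ i, ge v 0 (x i) := by
    intro i
    fin_cases i
    · exact ge0_iff.2 hx0
    · exact ge0_iff.2 hx1
  -- the linear factor which vanishes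
  obtain ⟨i, -, hli⟩ := prime_prod (v := v) Finset.univ (fun i => aeval x (lf (a i)))
    (fun i _ => aeval_int x hx _) (by
      have h := hzv
      unfold FF at h
      rwa [map_prod] at h)
  obtain ⟨l, hl⟩ : ∃ l, l = aeval x (lf (a i)) := ⟨_, rfl⟩
  obtain ⟨G, hG⟩ : ∃ G, G = aeval x (Gi a i) := ⟨_, rfl⟩
  obtain ⟨z, hzdef⟩ : ∃ z, z = aeval x (FF a) := ⟨_, rfl⟩
  have hzlG : z = l * G := by rw [hzdef, hl, hG, FF_eq a i, map_mul]
  rw [← hl] at hli
  rw [← hzdef] at hz hzv
  have hl0 : ge v 0 l := ge01 hli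
  have hG0 : ge v 0 G := by rw [hG]; exact aeval_int x hx _
  have hdl : ge v 0 (δ l) := hδ' _ hl0
  have hdG : ge v 0 (δ G) := hδ' _ hG0
  have hddl : ge v 0 (δ (δ l)) := hδ' _ hdl
  have hddG : ge v 0 (δ (δ G)) := hδ' _ hdG
  have e1 : δ l * G + l * δ G = z - 1 := by
    rw [← hz, hzlG, δ.leibniz, smul_eq_mul, smul_eq_mul]
    ring
  have e2 : δ (δ l) * G + 2 * δ l * δ G + l * δ (δ G) = z - 1 := by
    have h : δ (δ z) = z - 1 := by
      rw [hz, map_sub, hz, Derivation.map_one_eq_zero, sub_zero]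
    rw [← h, hzlG]
    simp only [Derivation.leibniz, map_add, smul_eq_mul]
    ring
  have hGu : ¬ ge v 1 G := by
    intro h
    have h1 : ge v 1 (z - (δ l * G + l * δ G)) := hzv.sub ((mul01 hdl h).add (mul10 hli hdG))
    rw [e1, sub_sub_cancel] at h1
    exact not_ge1_one h1
  have h3 : ge v 1 ((δ (δ l) - δ l) * G + 2 * δ l * δ G) := by
    have e : (δ (δ l) - δ l) * G + 2 * δ l * δ G = l * δ G - l * δ (δ G) := by
      linear_combination e2 - e1
    rw [e]
    exact (mul10 hli hdG).sub (mul10 hli hddG)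
  -- the vector identities
  obtain ⟨w, hw⟩ : ∃ w, w = wr δ x := ⟨_, rfl⟩
  have hdx : ∀ i, ge v 0 (δ (x i)) := fun i => hδ' _ (hx i)
  have hddx : ∀ i, ge v 0 (δ (δ (x i))) := fun i => hδ' _ (hdx i)
  have hw0 : ge v 0 w := by
    rw [hw]
    unfold wr
    exact (mul00 (hx 0) (hdx 1)).sub (mul00 (hx 1) (hdx 0))
  have hdw0 : ge v 0 (δ w) := hδ' _ hw0
  have hlx : l = algebraMap k K (a i 0) * x 0 + algebraMap k K (a i 1) * x 1 := by
    rw [hl, aeval_lf]
  have hdl' : δ l = algebraMap k K (a i 0) * δ (x 0) + algebraMap k K (a i 1) * δ (x 1) := by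
    rw [hlx, map_add, δ.leibniz, δ.leibniz]
    simp only [Derivation.map_algebraMap, smul_eq_mul]
    ring
  have hddl' : δ (δ l) = algebraMap k K (a i 0) * δ (δ (x 0)) +
      algebraMap k K (a i 1) * δ (δ (x 1)) := by
    rw [hdl', map_add, δ.leibniz, δ.leibniz]
    simp only [Derivation.map_algebraMap, smul_eq_mul]
    ring
  have hdw : δ w = x 0 * δ (δ (x 1)) - x 1 * δ (δ (x 0)) := by
    rw [hw]
    unfold wr
    rw [map_sub, δ.leibniz, δ.leibniz]
    simp only [smul_eq_mul]
    ring
  have hw' : w = x 0 * δ (x 1) - x 1 * δ (x 0) := by rw [hw]; rfl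
  have h5 : ∀ c : Fin 2, ge v 1 (algebraMap k K (rt (a i) c) * ((δ w - w) * G + 2 * w * δ G)) := by
    intro c
    have e : algebraMap k K (rt (a i) c) * ((δ w - w) * G + 2 * w * δ G) =
        x c * ((δ (δ l) - δ l) * G + 2 * δ l * δ G) +
        l * ((δ (x c) - δ (δ (x c))) * G - 2 * δ (x c) * δ G) := by
      fin_cases c
      · change algebraMap k K (a i 1) * ((δ w - w) * G + 2 * w * δ G) =
          x 0 * ((δ (δ l) - δ l) * G + 2 * δ l * δ G) +
          l * ((δ (x 0) - δ (δ (x 0))) * G - 2 * δ (x 0) * δ G)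
        rw [hdw, hddl', hdl', hw', hlx]
        ring
      · change algebraMap k K (-a i 0) * ((δ w - w) * G + 2 * w * δ G) =
          x 1 * ((δ (δ l) - δ l) * G + 2 * δ l * δ G) +
          l * ((δ (x 1) - δ (δ (x 1))) * G - 2 * δ (x 1) * δ G)
        rw [hdw, hddl', hdl', hw', hlx, map_neg]
        ring
    rw [e]
    refine (mul01 (hx c) h3).add (mul10 hli ?_)
    have h2 : ge v 0 (2 : K) := by
      have : (2 : K) = algebraMap k K 2 := by rw [map_ofNat]
      rw [this]
      exact ge_const v 2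
    exact (mul00 ((hdx c).sub (hddx c)) hG0).sub (mul00 (mul00 h2 (hdx c)) hdG)
  have hai : a i ≠ 0 := by
    intro h
    have hl00 : l = 0 := by
      rw [hlx, h]
      simp
    rw [hzlG, hl00, zero_mul, map_zero] at hz
    simp at hz
  have h6 : ge v 1 ((δ w - w) * G + 2 * w * δ G) := by
    have hrt : ∃ c, rt (a i) c ≠ 0 := by
      by_contra hc
      push Not at hc
      apply hai
      have h0 := hc 0
      have h1 := hc 1
      rw [rt_zero] at h0
      rw [rt_one, neg_eq_zero] at h1
      funext j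
      fin_cases j
      · exact h1
      · exact h0
    obtain ⟨c, hc⟩ := hrt
    have h7 := mul01 (ge_const v (rt (a i) c)⁻¹) (h5 c)
    have hne : algebraMap k K (rt (a i) c) ≠ 0 := by rwa [Ne, map_eq_zero]
    rwa [map_inv₀, inv_mul_cancel_left₀ hne] at h7
  -- the operator
  obtain ⟨A, hA⟩ : ∃ A, A = aeval x α := ⟨_, rfl⟩
  obtain ⟨c, hc⟩ : ∃ c, c = aeval x γ := ⟨_, rfl⟩
  have hA0 : ge v 0 A := by rw [hA]; exact aeval_int x hx _
  have hcast : ((m - 1 : ℕ) : K) = (m : K) - 1 := by
    rw [Nat.cast_sub (by omega), Nat.cast_one]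
  have hJ := hJAC k K δ x (m - 1) d (Gi a i) α (Gi_homog a i) hS.ha
  rw [← hG, ← hA, ← hw, hcast] at hJ
  -- the form H
  obtain ⟨H, hH⟩ : ∃ H : MvPolynomial (Fin 2) k, H = C 2 * Jc (Gi a i) α -
    C (d : k) * (γ * Gi a i) := ⟨_, rfl⟩
  have hHh : H.IsHomogeneous (m + d - 3) := by
    have g1 : (Jc (Gi a i) α).IsHomogeneous (m + d - 3) := by
      unfold Jc
      have p1 : ∀ j, (pderiv j (Gi a i)).IsHomogeneous (m - 1 - 1) := fun j =>
        (Gi_homog a i).pderiv
      have p2 : ∀ j, (pderiv j α).IsHomogeneous (d - 1) := fun j => hS.ha.pderiv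
      have e3 : m - 1 - 1 + (d - 1) = m + d - 3 := by omega
      have q1 := (p1 0).mul (p2 1)
      have q2 := (p1 1).mul (p2 0)
      rw [e3] at q1 q2
      exact q1.sub q2
    have g2 : (γ * Gi a i).IsHomogeneous (m + d - 3) := by
      have e3 : d - 2 + (m - 1) = m + d - 3 := by omega
      have := hS.hg.mul (Gi_homog a i)
      rwa [e3] at this
    have g3 : ∀ (r : k) (Q : MvPolynomial (Fin 2) k), Q.IsHomogeneous (m + d - 3) →
        (C r * Q).IsHomogeneous (m + d - 3) := by
      intro r Q hQ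
      have := (isHomogeneous_C (Fin 2) r).mul hQ
      rwa [zero_add] at this
    rw [hH]
    exact (g3 _ _ g1).sub (g3 _ _ g2)
  have hHz : eval (rt (a i)) H = 0 := by
    have h := hS.rel i
    rw [hH]
    simp only [map_sub, map_mul, eval_C]
    linear_combination -h
  have hH1 : ge v 1 (aeval x H) := by
    rw [hl] at hli
    exact ge1_of_root hHh (a i) hai hHz x hx hli
  have hHval : aeval x H = 2 * aeval x (Jc (Gi a i) α) - (d : K) * (c * G) := by
    rw [hH, map_sub, map_mul, map_mul, map_mul, aeval_C, aeval_C, ← hG, ← hc]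
    simp only [map_ofNat, map_natCast]
  have hnat : ∀ n : ℕ, ge v 0 (n : K) := by
    intro n
    have : (n : K) = algebraMap k K n := by rw [map_natCast]
    rw [this]
    exact ge_const v _
  have hfin : ge v 1 (RR m d α γ δ x * G) := by
    have e : RR m d α γ δ x * G = (d : K) * A * ((δ w - w) * G + 2 * w * δ G) +
        w ^ 2 * aeval x H := by
      unfold RR
      rw [← hw, ← hA, ← hc, hHval]
      linear_combination 2 * w * hJ
    rw [e]
    refine (mul01 (mul00 (hnat d) hA0) h6).add (mul01 ?_ hH1)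
    rw [pow_two]
    exact mul00 hw0 hw0
  have hRR0 : ge v 0 (RR m d α γ δ x) := by
    unfold RR
    rw [← hw, ← hA, ← hc]
    have h1 : ge v 0 (1 : K) := ge_one v
    have h2 : ge v 0 (2 : K) := by simpa using hnat 2
    have hc0 : ge v 0 c := by rw [hc]; exact aeval_int x hx _
    refine ((mul00 (mul00 (hnat d) hA0) (hdw0.sub hw0)).add
      (mul00 (mul00 (mul00 h2 ((hnat m).sub h1)) (hδ' _ hA0)) hw0)).sub
      (mul00 (mul00 (hnat d) hc0) ?_)
    rw [pow_two]
    exact mul00 hw0 hw0
  rcases prime1 hRR0 hG0 hfin with h | h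
  · exact h
  · exact absurd h hGu

end Pool.Agent.H92.BF
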